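import Pool.Agent.W896.PD.Defs

/-!
# Pushdown programs with a counter for the queries
-/

set_option autoImplicit false

namespace Pool.Agent.W902.PDS

open Pool.Agent.W896.PD

variable {ι β : Type}

/-- the program with a counter; more than `t` queries lead to a loop -/
@[reducible] def clk (P : PP ι β) (t : ℕ) : PP ι β where
  State := P.State × Fin (t + 1)
  Sym := P.Sym
  start := (P.start, 0)
  act := fun s => match P.act s.1 with
    | Act.query i nxt =>
      if h : s.2.val < t then Act.query i (fun b => (nxt b, ⟨s.2.val + 1, by omega⟩))
      else Act.query i (fun _ => s)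
    | Act.push a q => Act.push a (q, s.2)
    | Act.pop nxt => Act.pop (fun a => (nxt a, s.2))
    | Act.out b => Act.out b

theorem clk_card (P : PP ι β) (t : ℕ) :
    Fintype.card (clk P t).State = Fintype.card P.State * (t + 1) := by
  show Fintype.card (P.State × Fin (t + 1)) = _
  rw [Fintype.card_prod, Fintype.card_fin]

theorem clk_complete (P : PP ι β) (t : ℕ) (x : ι → Bool) {q : P.State} {σ : List P.Sym}
    {l : List ι} {b : β} (h : P.Runs x q σ l b) : ∀ c : Fin (t + 1), c.val + l.length ≤ t →
      (clk P t).Runs x (q, c) σ l b := by
  induction h with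
  | @out q σ b h =>
    intro c _
    apply PP.Runs.out
    simp only [h]
  | @query q σ i nxt l b h _ ih =>
    intro c hc
    rw [List.length_cons] at hc
    have h1 : c.val < t := by omega
    refine PP.Runs.query (P := clk P t) (nxt := fun b => (nxt b, ⟨c.val + 1, by omega⟩)) ?_
      (ih ⟨c.val + 1, by omega⟩ (by show c.val + 1 + l.length ≤ t; omega))
    simp only [h, dif_pos h1]
  | @push q σ a q' l b h _ ih =>
    intro c hc
    exact PP.Runs.push (P := clk P t) (a := a) (q' := (q', c)) (by simp only [h]) (ih c hc)
  | @pop q a σ nxt l b h _ ih =>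
    intro c hc
    exact PP.Runs.pop (P := clk P t) (nxt := fun a => (nxt a, c)) (by simp only [h]) (ih c hc)

theorem clk_sound (P : PP ι β) (t : ℕ) (x : ι → Bool) {s : (clk P t).State}
    {σ : List (clk P t).Sym} {l : List ι} {b : β} (h : (clk P t).Runs x s σ l b) :
    P.Runs x s.1 σ l b ∧ s.2.val + l.length ≤ t := by
  induction h with
  | @out s σ b h =>
    obtain ⟨q, c⟩ := s
    cases hq : P.act q with
    | query i nxt =>
      by_cases hc : c.val < t
      · simp only [hq, dif_pos hc] at h
        cases h
      · simp only [hq, dif_neg hc] at h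
        cases h
    | push a q' => simp only [hq] at h; cases h
    | pop nxt => simp only [hq] at h; cases h
    | out b' =>
      simp only [hq, Act.out.injEq] at h
      subst h
      refine ⟨PP.Runs.out hq, ?_⟩
      show c.val + 0 ≤ t
      omega
  | @query s σ i nxt l b h _ ih =>
    obtain ⟨q, c⟩ := s
    cases hq : P.act q with
    | query j nxt' =>
      by_cases hc : c.val < t
      · simp only [hq, dif_pos hc, Act.query.injEq] at h
        obtain ⟨rfl, rfl⟩ := h
        refine ⟨PP.Runs.query hq ih.1, ?_⟩
        have h2 := ih.2
        simp only [List.length_cons]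
        show c.val + (l.length + 1) ≤ t
        have h3 : c.val + 1 + l.length ≤ t := h2
        omega
      · simp only [hq, dif_neg hc, Act.query.injEq] at h
        obtain ⟨rfl, rfl⟩ := h
        exfalso
        have h2 : c.val + l.length ≤ t := ih.2
        have h3 : l.length = 0 := by have := c.2; omega
        have h4 : l = [] := List.length_eq_zero_iff.1 h3
        subst h4
        have h5 : P.Runs x q σ [] b := ih.1
        cases h5 with
        | out h6 => rw [hq] at h6; cases h6
        | push h6 _ => rw [hq] at h6; cases h6
        | pop h6 _ => rw [hq] at h6; cases h6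
    | push a q' => simp only [hq] at h; cases h
    | pop nxt' => simp only [hq] at h; cases h
    | out b' => simp only [hq] at h; cases h
  | @push s σ a s' l b h _ ih =>
    obtain ⟨q, c⟩ := s
    cases hq : P.act q with
    | query j nxt' =>
      by_cases hc : c.val < t
      · simp only [hq, dif_pos hc] at h
        cases h
      · simp only [hq, dif_neg hc] at h
        cases h
    | push a' q' =>
      simp only [hq, Act.push.injEq] at h
      obtain ⟨rfl, rfl⟩ := h
      exact ⟨PP.Runs.push hq ih.1, ih.2⟩
    | pop nxt' => simp only [hq] at h; cases h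
    | out b' => simp only [hq] at h; cases h
  | @pop s a σ nxt l b h _ ih =>
    obtain ⟨q, c⟩ := s
    cases hq : P.act q with
    | query j nxt' =>
      by_cases hc : c.val < t
      · simp only [hq, dif_pos hc] at h
        cases h
      · simp only [hq, dif_neg hc] at h
        cases h
    | push a' q' => simp only [hq] at h; cases h
    | pop nxt' =>
      simp only [hq, Act.pop.injEq] at h
      subst h
      exact ⟨PP.Runs.pop hq ih.1, ih.2⟩
    | out b' => simp only [hq] at h; cases h

theorem clk_comp (P : PP ι β) (t : ℕ) (x : ι → Bool) (l : List ι) (b : β) :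
    (clk P t).Comp x l b ↔ P.Comp x l b ∧ l.length ≤ t := by
  constructor
  · intro h
    have h1 := clk_sound P t x h
    refine ⟨h1.1, ?_⟩
    have h2 : 0 + l.length ≤ t := h1.2
    omega
  · rintro ⟨h, hl⟩
    refine clk_complete P t x h 0 ?_
    show 0 + l.length ≤ t
    omega

end Pool.Agent.W902.PDS
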