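import Pool.Agent.W902.Sep
import Pool.Agent.W902.PDS.Clock
import Pool.Agent.W896.PD.Cnf

/-!
# The separation for pushdown programs
-/

set_option autoImplicit false
set_option linter.unusedSectionVars false

open Finset

namespace Pool.Agent.W902.PDS

open Pool.Agent.H554R2.Sem Pool.Agent.H554R2.Coin Pool.Agent.H554R2.Lin Pool.Agent.W902.Coef
  Pool.Agent.W902.Sep Pool.Agent.W896.PD

open Classical in
/-- small pushdown programs which prove `f x = false` with at most `t` queries do so for few inputs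
only -/
def HardS {n : ℕ} (f : Pt n → Bool) (D t : ℕ) : Prop :=
  ∀ P : PP (Fin n) Bool, Fintype.card P.State < 2 ^ (n / D) →
    (∀ x l, P.Comp x l false → l.length ≤ t → f x = false) →
    2 ^ (n / D) * (univ.filter fun x => ∃ l, P.Comp x l false ∧ l.length ≤ t).card ≤
      (univ.filter fun x => f x = false).card

/-- the number of classes of the clocked program -/
theorem clocked_le (k D2 : ℕ) (hD2 : 0 < D2) : ∃ D : ℕ, 0 < D ∧ ∀ n ≥ D, ∀ t ≤ k * n,
    2 ^ (n / (4 * D2)) * (t + 1) ≤ 2 ^ (n / D2) := by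
  obtain ⟨N, hN⟩ := exp_big (4 * D2) (by omega) (k + 1)
  refine ⟨N + 1, by omega, fun n hn t ht => ?_⟩
  have h1 : t + 1 ≤ (k + 1) * (n + 1) := by nlinarith
  have h2 := hN n (by omega)
  calc 2 ^ (n / (4 * D2)) * (t + 1) ≤ 2 ^ (n / (4 * D2)) * 2 ^ (n / (4 * D2)) :=
        Nat.mul_le_mul_left _ (h1.trans h2)
    _ = 2 ^ (n / (4 * D2) + n / (4 * D2)) := by rw [pow_add]
    _ ≤ 2 ^ (n / D2) := by
        apply Nat.pow_le_pow_right (by norm_num)
        rw [Nat.le_div_iff_mul_le hD2]
        have h3 : 4 * D2 * (n / (4 * D2)) ≤ n := Nat.mul_div_le n (4 * D2)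
        have h4 : (n / (4 * D2) + n / (4 * D2)) * D2 * 2 = 4 * D2 * (n / (4 * D2)) := by ring
        omega

theorem fixed (k e : ℕ) : ∃ D : ℕ, 0 < D ∧ ∀ n ≥ D, ∃ f : Pt n → Bool, Easy f D e ∧
    2 ^ n ≤ D * (univ.filter fun x => f x = false).card ∧ ∀ t ≤ k * n, HardS f D t := by
  classical
  obtain ⟨Q, r, N, hQ, hr, hN, hmain⟩ := main1 (2 * k + 1) (by omega)
  obtain ⟨M, B, hM, hpart⟩ := Pool.Agent.W902.Orb.partitions (2 * Q) (e + 1) (by omega)
  obtain ⟨p, hp1, hp2⟩ := Nat.exists_infinite_primes (2 ^ (10 * Q))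
  have : Fact p.Prime := ⟨hp2⟩
  have : NeZero p := ⟨hp2.ne_zero⟩
  obtain ⟨D2, hD2, hcls⟩ := classes_le k r hr N hN
  obtain ⟨D3, hD3, hclk⟩ := clocked_le k D2 hD2
  set C := Fintype.card (Finset (Fin M) → ZMod p) with hC
  have hC0 : 0 < C := Fintype.card_pos
  obtain ⟨D, hD⟩ : ∃ D : ℕ, D = 4 * D2 + D3 + N + 2 * r + 2 * N * C + M + C * 2 ^ (B + 1) + 1 :=
    ⟨_, rfl⟩
  have hDC : C ≤ D := by
    have : C ≤ C * 2 ^ (B + 1) := Nat.le_mul_of_pos_right _ (by positivity)
    omega
  refine ⟨D, by omega, ?_⟩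
  intro n hn
  have hn1 : 1 ≤ n := by omega
  obtain ⟨π, hB, hcross⟩ := hpart n hn1
  let E : Fin n → Fin n → Prop := fun i j => (e + 1) * (univ.filter fun z => π z i ≠ π z j).card ≤ M
  obtain ⟨ω, hω⟩ := coefs Q (ZMod p) (by rw [ZMod.card]; exact hp1) n hn1 E hcross
  let c : Fin n → Fin n → ZMod p := fun i j => if E i j then ω i j else 0
  let val : Pt n → Finset (Fin M) → ZMod p := fun x S => part π c S x
  obtain ⟨y, hy⟩ := popular val
  rw [← hC] at hy
  have hcard : Fintype.card (Pt n) = 2 ^ n := by simp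
  rw [hcard] at hy
  let f : Pt n → Bool := fun x => decide (val x ≠ y)
  have hf : ∀ x, f x = false ↔ val x = y := by
    intro x
    simp [f]
  have hfF : (univ.filter fun x => f x = false) = univ.filter fun x => val x = y :=
    Finset.filter_congr fun x _ => hf x
  obtain ⟨x1, hx1⟩ : ∃ x1, val x1 = y := by
    by_contra h
    push Not at h
    have h2 : (univ.filter fun x => val x = y) = ∅ := Finset.filter_eq_empty_iff.2 fun x _ => h x
    rw [h2, Finset.card_empty, mul_zero] at hy
    have := Nat.pow_pos (n := n) (show 0 < 2 by norm_num)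
    omega
  refine ⟨f, ?_, ?_, ?_⟩
  · refine ⟨M, fun z x => decide (∃ S, z ∈ S ∧ part π c S x ≠ y S), hM, by omega, ?_, ?_, ?_⟩
    · intro z
      obtain ⟨U, l, h1, h2, h3⟩ := part_program π c hn1 z (hB z) y
      rw [← hC] at h1
      exact ⟨U, l, h1.trans (Nat.mul_le_mul_right _ (by omega)), h2, h3⟩
    · intro x hx z
      rw [hf] at hx
      rw [decide_eq_false_iff_not]
      rintro ⟨S, -, hS⟩
      exact hS (congrFun hx S)
    · intro x hx
      have h1 : val x ≠ y := by
        intro h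
        rw [(hf x).2 h] at hx
        exact absurd hx (by decide)
      obtain ⟨S, hS⟩ : ∃ S, part π c S x ≠ y S := by
        by_contra h
        push Not at h
        exact h1 (funext h)
      have h2 : (e + 1) * (univ.filter fun z => z ∉ S).card ≤ M := by
        by_contra h
        apply hS
        have h3 : ∀ x, part π c S x = 0 := by
          intro x
          unfold part
          apply Finset.sum_eq_zero
          intro i _
          apply Finset.sum_eq_zero
          intro j _
          split_ifs with h4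
          · have h5 : c i j = 0 := by
              show (if E i j then ω i j else 0) = 0
              rw [if_neg]
              intro h6
              apply h
              have h7 : (univ.filter fun z => z ∉ S) = univ.filter fun z => π z i ≠ π z j := by
                rw [← h4]
                ext z
                simp [lab]
              rw [h7]
              exact h6
            rw [h5, zero_mul]
          · rfl
        rw [h3, ← hx1]
        exact (h3 x1).symm
      have h3 : (univ.filter fun z => decide (∃ S, z ∈ S ∧ part π c S x ≠ y S) = false) ⊆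
          univ.filter fun z => z ∉ S := by
        intro z hz
        simp only [Finset.mem_filter, Finset.mem_univ, true_and, decide_eq_false_iff_not] at hz ⊢
        intro h4
        exact hz ⟨S, h4, hS⟩
      have h4 := Finset.card_le_card h3
      nlinarith
  · rw [hfF]
    exact hy.trans (Nat.mul_le_mul_right _ hDC)
  · intro tt htt P hP hsound
    by_contra hcon
    rw [hfF] at hcon
    push Not at hcon
    set G := univ.filter fun x : Pt n => ∃ l, P.Comp x l false ∧ l.length ≤ tt with hG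
    set F := (univ.filter fun x => val x = y).card with hF
    obtain ⟨t, ht⟩ : ∃ t : ℕ, t = k * n / r + 1 := ⟨_, rfl⟩
    have ht1 : k * n < r * t := by
      rw [ht]; exact Nat.lt_mul_div_succ (k * n) hr
    have ht2 : r * (2 * t) ≤ (2 * k + 1) * n := by
      have h1 := Nat.mul_div_le (k * n) r
      have h2 : 2 * r ≤ n := by omega
      rw [ht]
      calc r * (2 * (k * n / r + 1)) = 2 * (r * (k * n / r)) + 2 * r := by ring
        _ ≤ 2 * (k * n) + n := by omega
        _ = (2 * k + 1) * n := by ring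
    obtain ⟨Bk, hBk1, hBk2⟩ := blocks (clk P tt) r t hr false G (by
      intro x hx
      obtain ⟨l, hl, hl2⟩ := (Finset.mem_filter.1 hx).2
      exact ⟨l, (clk_comp P tt x l false).2 ⟨hl, hl2⟩, by omega⟩)
    rw [clk_card] at hBk1
    have hS : Fintype.card P.State * (tt + 1) ≤ 2 ^ (n / D2) := by
      have h1 : 2 ^ (n / D) ≤ 2 ^ (n / (4 * D2)) :=
        Nat.pow_le_pow_right (by norm_num) (Nat.div_le_div_left (by omega) (by omega))
      exact (Nat.mul_le_mul_right _ (hP.le.trans h1)).trans (hclk n (by omega) tt htt)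
    have hcl := hcls n (by omega) _ hS
    rw [← ht] at hcl
    set X := r * (Fintype.card P.State * (tt + 1) * (Fintype.card P.State * (tt + 1) *
        ((r * t + 1) * (r * t + 1) ^ r))) ^ r with hX
    have hE2 : 2 ^ (n / D2) * X ≤ 2 ^ (n / (8 * N)) := by
      refine le_trans ?_ hcl
      calc 2 ^ (n / D2) * X ≤ (2 ^ (n / D2) * X) ^ N := by
            rcases Nat.eq_zero_or_pos (2 ^ (n / D2) * X) with h0 | h0
            · rw [h0]; exact Nat.zero_le _
            · exact Nat.le_self_pow (by omega) _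
        _ ≤ N * (2 ^ (n / D2) * X) ^ N := Nat.le_mul_of_pos_left _ hN
    have hDD : 2 ^ (n / D) ≤ 2 ^ (n / D2) :=
      Nat.pow_le_pow_right (by norm_num) (Nat.div_le_div_left (by omega) hD2)
    have hexp : C + n / (8 * N) ≤ n / N := by
      rw [Nat.le_div_iff_mul_le hN]
      have h1 : 8 * N * (n / (8 * N)) ≤ n := Nat.mul_div_le n (8 * N)
      have h2 : 2 * N * C ≤ n := by omega
      have h3 : 8 * ((C + n / (8 * N)) * N) = 4 * (2 * N * C) + 8 * N * (n / (8 * N)) := by ring
      omega
    have hbig : 2 ^ n ≤ 2 ^ (n / N) * Bk.K.card := by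
      calc 2 ^ n ≤ C * F := hy
        _ ≤ 2 ^ C * (2 ^ (n / D) * G.card) := Nat.mul_le_mul Nat.lt_two_pow_self.le hcon.le
        _ ≤ 2 ^ C * (2 ^ (n / D2) * (X * Bk.K.card)) :=
            Nat.mul_le_mul_left _ (Nat.mul_le_mul hDD hBk1)
        _ = 2 ^ C * ((2 ^ (n / D2) * X) * Bk.K.card) := by ring
        _ ≤ 2 ^ C * (2 ^ (n / (8 * N)) * Bk.K.card) :=
            Nat.mul_le_mul_left _ (Nat.mul_le_mul_right _ hE2)
        _ = 2 ^ (C + n / (8 * N)) * Bk.K.card := by rw [pow_add]; ring
        _ ≤ 2 ^ (n / N) * Bk.K.card :=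
            Nat.mul_le_mul_right _ (Nat.pow_le_pow_right (by norm_num) hexp)
    obtain ⟨a, b, g, ha, hb, hga, hgb, ⟨R⟩⟩ := hmain n (by omega) (2 * t) ht2 Bk hbig
    refine no_rect E ω hω Bk.K (∑ S, y S) ?_ a b g ha hb hga hgb R
    intro x hx
    obtain ⟨l, hl⟩ := hBk2 x hx
    rw [clk_comp] at hl
    have h1 := (hf x).1 (hsound x l hl.1 hl.2)
    show form c x = _
    rw [← sum_part π c x]
    exact Finset.sum_congr rfl fun S _ => congrFun h1 S

theorem HardS.mono {n : ℕ} {f : Pt n → Bool} {D D' t : ℕ} (h : HardS f D t) (hD0 : 0 < D)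
    (hD : D ≤ D') : HardS f D' t := by
  intro P hP hs
  have h1 : 2 ^ (n / D') ≤ 2 ^ (n / D) :=
    Nat.pow_le_pow_right (by norm_num) (Nat.div_le_div_left hD hD0)
  exact (Nat.mul_le_mul_right _ h1).trans (h P (hP.trans_le h1) hs)

/-- families of programs -/
theorem HardS.family {n : ℕ} {f : Pt n → Bool} {D t : ℕ} (h : HardS f D t)
    (hF : 0 < (univ.filter fun x => f x = false).card) (Ω : Type) [Fintype Ω]
    (P : Ω → PP (Fin n) Bool) (hP : ∀ ω, Fintype.card (P ω).State < 2 ^ (n / D))
    (hs : ∀ ω x l, (P ω).Comp x l false → l.length ≤ t → f x = false) :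
    ∃ x, f x = false ∧
      2 ^ (n / D) * Nat.card {ω // ∃ l, (P ω).Comp x l false ∧ l.length ≤ t} ≤ Nat.card Ω := by
  classical
  by_contra hcon
  push Not at hcon
  set F := univ.filter fun x => f x = false with hFdef
  have h1 : ∑ _x ∈ F, Fintype.card Ω <
      ∑ x ∈ F, 2 ^ (n / D) * (univ.filter fun ω => ∃ l, (P ω).Comp x l false ∧ l.length ≤ t).card := by
    apply Finset.sum_lt_sum_of_nonempty (Finset.card_pos.1 hF)
    intro x hx
    have := hcon x (Finset.mem_filter.1 hx).2
    rw [Nat.card_eq_fintype_card, Nat.card_eq_fintype_card, Fintype.card_subtype] at this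
    exact this
  have h2 : ∑ x ∈ F, (univ.filter fun ω => ∃ l, (P ω).Comp x l false ∧ l.length ≤ t).card =
      ∑ ω, (F.filter fun x => ∃ l, (P ω).Comp x l false ∧ l.length ≤ t).card :=
    Finset.sum_card_bipartiteAbove_eq_sum_card_bipartiteBelow
      (s := F) (t := (univ : Finset Ω)) (fun x ω => ∃ l, (P ω).Comp x l false ∧ l.length ≤ t)
  rw [Finset.sum_const, smul_eq_mul, ← Finset.mul_sum, h2, Finset.mul_sum] at h1
  have h3 : ∑ ω, 2 ^ (n / D) * (F.filter fun x => ∃ l, (P ω).Comp x l false ∧ l.length ≤ t).card ≤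
      ∑ _ω : Ω, F.card := by
    apply Finset.sum_le_sum
    intro ω _
    refine le_trans (Nat.mul_le_mul_left _ (Finset.card_le_card ?_)) (h (P ω) (hP ω) (hs ω))
    exact Finset.filter_subset_filter _ (Finset.subset_univ _)
  rw [Finset.sum_const, Finset.card_univ, smul_eq_mul, mul_comm] at h3
  omega

open Filter in
theorem uniform (h : ℕ → ℕ) (hh : Tendsto h atTop atTop) : ∃ f : ∀ n, Pt n → Bool,
    ∀ k e : ℕ, ∃ N, ∀ n ≥ N, Easy (f n) (h n) e ∧
      2 ^ n ≤ h n * (univ.filter fun x => f n x = false).card ∧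
      ∀ t ≤ k * n, HardS (f n) (h n) t := by
  classical
  choose D hD0 hD using fun k => fixed k k
  let j : ℕ → ℕ := fun n => Nat.findGreatest (fun k => D k ≤ n ∧ D k ≤ h n) n
  let f : ∀ n, Pt n → Bool := fun n =>
    if hn : D (j n) ≤ n then (hD (j n) n hn).choose else fun _ => false
  refine ⟨f, fun k e => ?_⟩
  set K := max k e with hK
  obtain ⟨N, hN⟩ := eventually_atTop.1 (tendsto_atTop.1 hh (D K))
  refine ⟨max N (max K (D K)), fun n hn => ?_⟩
  have n1 : N ≤ n := (le_max_left _ _).trans hn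
  have n2 : K ≤ n := ((le_max_left _ _).trans (le_max_right _ _)).trans hn
  have n3 : D K ≤ n := ((le_max_right _ _).trans (le_max_right _ _)).trans hn
  have hj1 : K ≤ j n := Nat.le_findGreatest n2 ⟨n3, hN n n1⟩
  have hj2 : D (j n) ≤ n ∧ D (j n) ≤ h n :=
    Nat.findGreatest_spec (P := fun k => D k ≤ n ∧ D k ≤ h n) n2 ⟨n3, hN n n1⟩
  have hfn : f n = (hD (j n) n hj2.1).choose := by
    show (if hn : D (j n) ≤ n then (hD (j n) n hn).choose else fun _ => false) = _
    rw [dif_pos hj2.1]
  obtain ⟨s1, s2, s3⟩ := (hD (j n) n hj2.1).choose_spec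
  rw [← hfn] at s1 s2 s3
  refine ⟨s1.mono hj2.2 ((le_max_right _ _).trans hj1), s2.trans (Nat.mul_le_mul_right _ hj2.2),
    fun t ht => (s3 t (ht.trans (Nat.mul_le_mul_right _ ((le_max_left _ _).trans hj1)))).mono
      (hD0 _) hj2.2⟩

end Pool.Agent.W902.PDS
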